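import Pool.Agent.helper62.DP8.Spec

/-!
# Project sq8: row CHD: a shortest cycle has no chord
-/

set_option autoImplicit false

namespace Pool.Agent.helper62.DP8

theorem CHD_mod {V : Type} {G : SimpleGraph V} {g : ℕ} {u : ℕ → V} (h : Cy G g u) (n : ℕ) : u (n % g) = u n := by
  have key : ∀ q r : ℕ, u (r + g * q) = u r := by
    intro q r
    induction q with
    | zero => simp
    | succ q ih =>
      have : r + g * (q + 1) = (r + g * q) + g := by ring
      rw [this, h.per, ih]
  have := key (n / g) (n % g)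
  rw [Nat.mod_add_div] at this
  exact this.symm

theorem CHD_inj {V : Type} {G : SimpleGraph V} {g : ℕ} {u : ℕ → V} (hg : 0 < g) (h : Cy G g u) (i a b : ℕ) (ha : a < g) (hb : b < g)
    (he : u (i + a) = u (i + b)) : a = b := by
  rw [← CHD_mod h (i + a), ← CHD_mod h (i + b)] at he
  have h1 := h.inj _ (Nat.mod_lt _ hg) _ (Nat.mod_lt _ hg) he
  have h2 : (i + a) ≡ (i + b) [MOD g] := h1
  have h3 : a ≡ b [MOD g] := Nat.ModEq.add_left_cancel' i h2
  exact Nat.ModEq.eq_of_lt_of_lt h3 ha hb

theorem CHD_path {V : Type} {G : SimpleGraph V} {g : ℕ} {u : ℕ → V} (h : Cy G g u) (i : ℕ) :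
    ∀ m, m < g → ∃ p : G.Walk (u i) (u (i + m)), p.IsPath ∧ p.length = m ∧ ∀ z ∈ p.support, ∃ j, j ≤ m ∧ z = u (i + j) := by
  intro m
  induction m with
  | zero =>
    intro _
    refine ⟨SimpleGraph.Walk.nil, SimpleGraph.Walk.IsPath.nil, rfl, ?_⟩
    intro z hz
    refine ⟨0, le_refl _, ?_⟩
    simpa using hz
  | succ m ih =>
    intro hm
    obtain ⟨p, hp1, hp2, hp3⟩ := ih (by omega)
    have hadj : G.Adj (u (i + m)) (u (i + (m + 1))) := h.adj (i + m)
    refine ⟨p.concat hadj, ?_, ?_, ?_⟩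
    · refine (SimpleGraph.Walk.concat_isPath_iff hadj).2 ⟨hp1, ?_⟩
      intro hz
      obtain ⟨j, hj, hz'⟩ := hp3 _ hz
      have := CHD_inj (by omega) h i (m + 1) j (by omega) (by omega) hz'
      omega
    · rw [SimpleGraph.Walk.length_concat, hp2]
    · intro z hz
      rw [SimpleGraph.Walk.support_concat, List.mem_append, List.mem_singleton] at hz
      rcases hz with hz' | hz'
      · obtain ⟨j, hj, hz''⟩ := hp3 _ hz'
        exact ⟨j, by omega, hz''⟩
      · exact ⟨m + 1, le_refl _, hz'⟩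

theorem CHD (hGP2 : GP2_stmt) : CHD_stmt := by
  intro V G g u hg hGir hCy i k hk hkg hadj
  obtain ⟨p, hp1, hp2, _⟩ := CHD_path hCy i k (by omega)
  have hq : (SimpleGraph.Walk.cons hadj SimpleGraph.Walk.nil).IsPath := by
    rw [SimpleGraph.Walk.cons_isPath_iff]
    refine ⟨SimpleGraph.Walk.IsPath.nil, ?_⟩
    intro hz
    rw [SimpleGraph.Walk.support_nil, List.mem_singleton] at hz
    exact G.ne_of_adj hadj hz
  have hne : p ≠ SimpleGraph.Walk.cons hadj SimpleGraph.Walk.nil := by
    intro he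
    have := congrArg SimpleGraph.Walk.length he
    rw [hp2, SimpleGraph.Walk.length_cons, SimpleGraph.Walk.length_nil] at this
    omega
  have := hGP2 V G g hGir (u i) (u (i + k)) p (SimpleGraph.Walk.cons hadj SimpleGraph.Walk.nil) hp1 hq hne
  rw [hp2, SimpleGraph.Walk.length_cons, SimpleGraph.Walk.length_nil] at this
  omega

end Pool.Agent.helper62.DP8
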